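import Pool.Agent.helper68.FY.Spec

/-!
# MP_f6e9a2_nt, project fy, row SG
-/

set_option autoImplicit false

namespace Pool.Agent.helper68.FY

open Finset

open Classical in
/-- the exceptional condition -/
def SG_Q (p : ℕ) (g : V4) (w : (ZMod p × ZMod p) × (ZMod p × ZMod p)) : Prop :=
  Phi p w.1 ≠ 0 ∧ Phi p w.2 ≠ 0 ∧ ri p g w.1 w.2

open Classical in
theorem SG_split (p : ℕ) (g : V4) (S : Finset (ZMod p × ZMod p)) :
    pc S (rp p g) ≤ ((S ×ˢ S).filter fun w => rp p g w.1 w.2 ∧ ¬ SG_Q p g w).card +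
      pc (S.filter fun x => Phi p x ≠ 0) (ri p g) := by
  unfold pc
  refine (Finset.card_le_card ?_).trans (Finset.card_union_le _ _)
  intro w hw
  rw [Finset.mem_filter, Finset.mem_product] at hw
  rw [Finset.mem_union]
  by_cases hq : SG_Q p g w
  · right
    rw [Finset.mem_filter, Finset.mem_product, Finset.mem_filter, Finset.mem_filter]
    exact ⟨⟨⟨hw.1.1, hq.1⟩, ⟨hw.1.2, hq.2.1⟩⟩, hq.2.2⟩
  · left
    rw [Finset.mem_filter, Finset.mem_product]
    exact ⟨hw.1, hw.2, hq⟩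

theorem SG (h : KEY_stmt) : SG_stmt := by
  classical
  intro p _ G B hG h7
  set c : ℝ := 2 + 320 * (G : ℝ) ^ 2 / Real.sqrt p with hc
  have hc0 : 0 ≤ c := by positivity
  have h1 : cnt B.offDiag (rp p) G ≤
      ∑ g ∈ PB G, ((B.offDiag ×ˢ B.offDiag).filter fun w => rp p g w.1 w.2 ∧ ¬ SG_Q p g w).card +
        cnt (B.offDiag.filter fun x => Phi p x ≠ 0) (ri p) G := by
    unfold cnt
    rw [← Finset.sum_add_distrib]
    refine Finset.sum_le_sum fun g _ => ?_
    have := SG_split p g B.offDiag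
    refine this.trans (le_of_eq ?_)
    congr 1
  have h2 : ∑ g ∈ PB G, ((B.offDiag ×ˢ B.offDiag).filter fun w => rp p g w.1 w.2 ∧ ¬ SG_Q p g w).card =
      ∑ w ∈ B.offDiag ×ˢ B.offDiag, ((PB G).filter fun g => rp p g w.1 w.2 ∧ ¬ SG_Q p g w).card := by
    simp_rw [Finset.card_filter]
    exact Finset.sum_comm
  have h3 : ∀ w ∈ B.offDiag ×ˢ B.offDiag,
      (((PB G).filter fun g => rp p g w.1 w.2 ∧ ¬ SG_Q p g w).card : ℝ) ≤ c := by
    intro w hw
    rw [Finset.mem_product, Finset.mem_offDiag, Finset.mem_offDiag] at hw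
    refine h p G w.1 w.2 hG h7 hw.1.2.2 hw.2.2.2 _ ?_
    intro g hg
    rw [Finset.mem_filter] at hg
    exact ⟨hg.1, hg.2.1, hg.2.2⟩
  have h4 : ((∑ w ∈ B.offDiag ×ˢ B.offDiag,
      ((PB G).filter fun g => rp p g w.1 w.2 ∧ ¬ SG_Q p g w).card : ℕ) : ℝ) ≤ (B.card : ℝ) ^ 4 * c := by
    rw [Nat.cast_sum]
    refine (Finset.sum_le_sum h3).trans ?_
    rw [Finset.sum_const, nsmul_eq_mul, Finset.card_product]
    refine mul_le_mul_of_nonneg_right ?_ hc0
    have h5 : B.offDiag.card ≤ B.card ^ 2 := by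
      rw [Finset.offDiag_card, pow_two]
      exact Nat.sub_le _ _
    have h6 : B.offDiag.card * B.offDiag.card ≤ B.card ^ 4 := by
      calc B.offDiag.card * B.offDiag.card ≤ B.card ^ 2 * B.card ^ 2 := Nat.mul_le_mul h5 h5
        _ = B.card ^ 4 := by ring
    exact_mod_cast h6
  have h7' : (cnt B.offDiag (rp p) G : ℝ) ≤
      ((∑ g ∈ PB G, ((B.offDiag ×ˢ B.offDiag).filter fun w => rp p g w.1 w.2 ∧ ¬ SG_Q p g w).card +
        cnt (B.offDiag.filter fun x => Phi p x ≠ 0) (ri p) G : ℕ) : ℝ) := by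
    exact_mod_cast h1
  rw [Nat.cast_add, h2] at h7'
  refine h7'.trans ?_
  refine add_le_add h4 (le_of_eq ?_)
  rfl

end Pool.Agent.helper68.FY
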